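import Pool.Agent.U569.APL.ExQ
import Pool.Agent.Results.MP_f5d5f4_nt.FewDigitFamilies

/-!
# No congruences for almost all elliptic curves with coefficients or parameters formed from arbitrary sets

Let `E_v : y² = x³ + A(v) x + B(v)`, `v ∈ ℤ ^ r`, be a polynomial family of elliptic curves in any number of parameters
whose discriminant has many exact prime divisors in the mean (`MeanExact`). We show that this is so for the family of all
curves `y² = x³ + v₁ x + v₂` and for the one-parameter families with an `I₁` fibre. Let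
`E'_w : y² = x³ + A'(w) x + B'(w)` be any second polynomial family in any number of parameters.

**Theorem.** For all `ε, β > 0` there are `η > 0` and `q₀` such that for all `q ≥ q₀` and every finite family of
parameters `v = c₀ + y`, `c₀` any integral vector, where the vectors `y` (represented by `0, …, q - 1`) are in a family of
vectors modulo `q` with nontrivial Fourier coefficients at most `1 / (Z (42 + 3 log q) ^ r)`, `q ^ β ≤ Z ≤ q` (`FlatMod β q`),
the following holds for all but the fraction `ε` of its members `v`: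

1. `E_v` has no congruence at any level `n ≥ 2` with ANY elliptic curve `y² = x³ + a x + b`, `a`, `b` integers, with
   `|4 a³ + 27 b²| ≤ q ^ η`;
2. for all `q' ≥ q` and EVERY family of parameters `w` of the second family which is flat modulo `q'` in the same sense,
   `E_v` has congruences, at whatever level, with at most the fraction `q ^ (-η)` of the curves `E'_w`.

Moreover the `n`-torsion is not isomorphic over any number field `L` if `n` has a prime factor `l ≥ 3` with
`l > [L : ℚ]`. `η` and `q₀` depend only on the two polynomial families and on `ε`, `β`.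

Such families of parameters (`ExamplesQ`; `0 < δ ≤ 1`, `β = δ / 8`, `q = p` a prime `≥ p₀ (δ, r)`):

* `v = c₀ + (b(x, z) + f(x) + g(z) mod p)`, where `b : k ^ a × k ^ b → k ^ r` is bilinear over the field `k` of `p`
  elements, the nontrivial combinations of its coordinates have rank at least `ρ`, `x` and `z` are in ARBITRARY sets `E`
  and `F` with `|E| |F| ≥ p ^ (a + b - ρ + δ)` and `f`, `g` are arbitrary functions;
* the same for `b(x, z) = x z`, `x` and `z` in ARBITRARY subsets of the field of `p ^ r` elements, `|E| |F| ≥ p ^ (r + δ)`;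
* polynomials in `k` variables of degree at most `p ^ (δ / 4)`, all nontrivial combinations of which have a monomial with at
  least two variables, plus arbitrary functions of the single variables, on products of `k` ARBITRARY sets of at least
  `p ^ (1 / 2 + δ)` residues; for example the curves `y² = x³ + (a b mod p) x + (a b c mod p)`, `a, b, c ∈ S`;
* polynomials in one variable of degree at most `p ^ (δ / 4)`, no nontrivial combination of which is constant, on any
  subgroup of the multiplicative group modulo `p` with at least `p ^ (1 / 2 + δ)` elements.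

New: the families, the uniformity in them, families in several parameters (`MeanExact`). The estimates of the Fourier
coefficients on arbitrary sets are in `U569/APL`. Starting libraries: Turan's sieve (`N666.TM`, `N645.TF`) shows that for
almost all `v` two primes `q₁ < q₂` in `(q ^ (2 η), q ^ κ]` divide the discriminant of `E_v` exactly once; by the local
theorems (`TH4.FZ.key_bad`, `TH894.NJ.no_iso`) a curve with a congruence with `E_v` has bad reduction at `q₁` or `q₂`.
-/

set_option autoImplicit false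

namespace Pool.Agent.Results.MP_f5d5f4_nt.ArbitrarySets

open MvPolynomial
open Pool.Agent.Results.MP_f5d5f4_nt.FewDigitFamilies (NoCongruence)
open Pool.Agent.U569.APL

/-- Many exact prime divisors in the mean: the sum over the primes `y < q ≤ y ^ m` of the proportion of the vectors modulo
`q²` for which `q` divides the discriminant `4 A³ + 27 B²` and `q²` does not is at least `log m / 2 - C`. -/
def MeanExact {r : ℕ} (A B : MvPolynomial (Fin r) ℤ) : Prop :=
  ∃ (C : ℝ) (y₀ : ℕ), ∀ y : ℕ, y₀ ≤ y → ∀ m : ℕ, 1 ≤ m →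
    1 / 2 * Real.log m - C ≤ ∑ q ∈ (Finset.Ioc y (y ^ m)).filter Nat.Prime,
      ({ρ : Fin r → ZMod (q ^ 2) | ∀ c : Fin r → ℤ, (∀ l, (c l : ZMod (q ^ 2)) = ρ l) →
        (q : ℤ) ∣ 4 * eval c A ^ 3 + 27 * eval c B ^ 2 ∧
          ¬ (q : ℤ) ^ 2 ∣ 4 * eval c A ^ 3 + 27 * eval c B ^ 2}.ncard : ℝ) / ((q ^ 2 : ℕ) : ℝ) ^ r

/-- The curve `y² = x³ + E.1 x + E.2` has no congruences with elliptic curves of discriminant up to `q ^ η`, and for every
`q' ≥ q` and every finite family of parameters which is flat modulo `q'` it has congruences with at most the fraction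
`q ^ (-η)` of the members of the family `y² = x³ + A' x + B'` with these parameters. -/
def Good {r : ℕ} (A' B' : MvPolynomial (Fin r) ℤ) (β η : ℝ) (q : ℕ) (E : ℤ × ℤ) : Prop :=
  (∀ a b : ℤ, 4 * a ^ 3 + 27 * b ^ 2 ≠ 0 → ((|4 * a ^ 3 + 27 * b ^ 2| : ℤ) : ℝ) ≤ (q : ℝ) ^ η →
    NoCongruence E.1 E.2 a b) ∧
  ∀ q' : ℕ, q ≤ q' → ∀ (τ : Type) (s : Finset τ) (w : τ → Fin r → ℤ), FlatMod β q' s w →
    ({k : τ | k ∈ s ∧ ¬ NoCongruence E.1 E.2 (eval (w k) A') (eval (w k) B')}.ncard : ℝ) ≤ (q : ℝ) ^ (-η) * s.card

lemma src_of_mean {r : ℕ} {A B : MvPolynomial (Fin r) ℤ} (h : MeanExact A B) :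
    Pool.Agent.N645.TF.Src fun c : Fin r → ℤ => (eval c A, eval c B) := by
  obtain ⟨C, y₀, h⟩ := h
  refine ⟨fun q => {ρ | 5 ≤ q ∧ ∀ c : Fin r → ℤ, (∀ l, (c l : ZMod (q ^ 2)) = ρ l) →
        (q : ℤ) ∣ 4 * eval c A ^ 3 + 27 * eval c B ^ 2 ∧
          ¬ (q : ℤ) ^ 2 ∣ 4 * eval c A ^ 3 + 27 * eval c B ^ 2}, C, max y₀ 5, fun y hy m hm => ?_, fun q hq c hc => ?_⟩
  · refine (h y ((le_max_left _ _).trans hy) m hm).trans (Finset.sum_le_sum fun q hq => ?_)
    rw [Finset.mem_filter, Finset.mem_Ioc] at hq
    have h5 : 5 ≤ q := by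
      have := (le_max_right y₀ 5).trans hy
      omega
    unfold Pool.Agent.N666.TM.dens
    rw [Fintype.card_fin]
    simp only [h5, true_and]
    exact le_rfl
  · have h1 := hc.2 c fun l => rfl
    exact ⟨hq, hc.1, h1.1, h1.2⟩

lemma mean_of_src {r : ℕ} {A B : MvPolynomial (Fin r) ℤ} {E : (Fin r → ℤ) → ℤ × ℤ} (hE : Pool.Agent.N645.TF.Src E)
    (hA : ∀ c, (E c).1 = eval c A) (hB : ∀ c, (E c).2 = eval c B) : MeanExact A B := by
  obtain ⟨Ω, C, y₀, h1, h2⟩ := hE
  refine ⟨C, max y₀ 1, fun y hy m hm => (h1 y ((le_max_left _ _).trans hy) m hm).trans (Finset.sum_le_sum fun q hq => ?_)⟩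
  rw [Finset.mem_filter] at hq
  have : NeZero (q ^ 2) := ⟨by have := hq.2.pos; positivity⟩
  unfold Pool.Agent.N666.TM.dens
  rw [Fintype.card_fin]
  refine div_le_div_of_nonneg_right ?_ (by positivity)
  refine Nat.cast_le.2 (Set.ncard_le_ncard ?_ (Set.toFinite _))
  intro ρ hρ c hc
  have h3 : Pool.Agent.Y722.HS.red (q ^ 2) c = ρ := funext hc
  have h4 := h2 q hq.2 c (by rw [h3]; exact hρ)
  rw [hA, hB] at h4
  exact ⟨h4.2.2.1, h4.2.2.2⟩

lemma eval_fam (A : Polynomial ℤ) (c : Fin 1 → ℤ) :
    A.eval (c 0) = eval c (Polynomial.aeval (X 0 : MvPolynomial (Fin 1) ℤ) A) := by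
  have h1 : (eval c).comp (algebraMap ℤ (MvPolynomial (Fin 1) ℤ)) = RingHom.id ℤ := Subsingleton.elim _ _
  rw [Polynomial.aeval_def, Polynomial.hom_eval₂, h1, eval_X]
  rfl

/-- **No congruences in families formed from arbitrary sets.** (1) For every family of elliptic curves
`y² = x³ + A(v) x + B(v)` with many exact prime divisors of the discriminant in the mean, every second family
`y² = x³ + A'(w) x + B'(w)` and all `ε, β > 0` there are `η > 0` and `q₀` such that for all `q ≥ q₀` all but the fraction `ε`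
of the members of every family of parameters `v` which is flat modulo `q` are `Good`: the curve has no congruences with
any elliptic curve with `|4 a³ + 27 b²| ≤ q ^ η`, and with at most the fraction `q ^ (-η)` of the members of every family of
parameters `w` which is flat modulo some `q' ≥ q`. (2), (3) The family of all curves and the one-parameter families with an
`I₁` fibre have many exact prime divisors in the mean. (4) The examples of flat families. -/
theorem result :
    (∀ (r : ℕ) (A B : MvPolynomial (Fin r) ℤ), MeanExact A B →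
      ∀ (r' : ℕ) (A' B' : MvPolynomial (Fin r') ℤ), 4 * A' ^ 3 + 27 * B' ^ 2 ≠ 0 →
      ∀ ε β : ℝ, 0 < ε → 0 < β → ∃ η : ℝ, 0 < η ∧ ∃ q₀ : ℕ, ∀ q : ℕ, q₀ ≤ q →
        ∀ (τ : Type) (s : Finset τ) (v : τ → Fin r → ℤ), FlatMod β q s v →
          ({i : τ | i ∈ s ∧ ¬ Good A' B' β η q (eval (v i) A, eval (v i) B)}.ncard : ℝ) ≤ ε * s.card) ∧
    MeanExact (X 0 : MvPolynomial (Fin 2) ℤ) (X 1) ∧
    (∀ A B P : Polynomial ℤ, Irreducible P → 0 < P.natDegree → P ∣ 4 * A ^ 3 + 27 * B ^ 2 →
      ¬ P ^ 2 ∣ 4 * A ^ 3 + 27 * B ^ 2 →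
      MeanExact (Polynomial.aeval (X 0 : MvPolynomial (Fin 1) ℤ) A) (Polynomial.aeval (X 0) B)) ∧
    ∀ r : ℕ, ExamplesQ (Fin r) := by
  refine ⟨fun r A B hM r' A' B' hD ε β hε hβ => ?_, ?_, ?_, fun r => examplesQ _⟩
  · obtain ⟨η, hη, q₀, h⟩ := flat_main _ (src_of_mean hM) A' B' hD ε β hε hβ
    refine ⟨η, hη, q₀, fun q hq τ s v hs => le_trans ?_ (h q hq τ s v hs)⟩
    refine Nat.cast_le.2 (Set.ncard_le_ncard ?_ (s.finite_toSet.subset fun i hi => hi.1))
    rintro i ⟨hi, hi'⟩
    refine ⟨hi, fun hg => hi' ⟨fun a b h0 hle => ?_, fun q' hq' τ' s' w hw => ?_⟩⟩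
    · refine FewDigitFamilies.no_congruence (hg.1 a b h0 (le_trans (le_of_eq ?_) hle))
      unfold Pool.Agent.W275.FM.dsc
      push_cast
      rfl
    · refine le_trans ?_ (hg.2 q' hq' τ' s' w hw)
      refine Nat.cast_le.2 (Set.ncard_le_ncard ?_ (s'.finite_toSet.subset fun i hi => hi.1))
      rintro k ⟨hk, hk'⟩
      exact ⟨hk, fun h => hk' (FewDigitFamilies.no_congruence h)⟩
  · exact mean_of_src Pool.Agent.N645.TF.src_two (fun c => by simp) (fun c => by simp)
  · intro A B P hP hd h1 h2
    exact mean_of_src (Pool.Agent.N645.TF.src_one A B P hP hd h1 h2) (fun c => eval_fam A c) (fun c => eval_fam B c)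

end Pool.Agent.Results.MP_f5d5f4_nt.ArbitrarySets
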