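import Pool.Agent.N645.TF.Main
import Pool.Agent.U828.KD.Ord
import Pool.Agent.Results.MP_f5d5f4_nt.FewDigitFamilies

/-!
# MP_f5d5f4_nt: 100% of the curves in a sequence given by arbitrary functions of given orders have no congruences

Let `E_n`, `n = 1, 2, 3, …`, be one of the following sequences of elliptic curves:

* `E_n : y² = x³ + ⌊f₁(n)⌋ x + ⌊f₂(n)⌋`, or
* `E_n : y² = x³ + A(t) x + B(t)`, `t = ⌊f(n)⌋`, where `A`, `B` are integer polynomials such that some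
  irreducible factor of `4A³ + 27B²` has multiplicity one (the family has an `I₁` fibre),

and `E'_k : y² = x³ + A'(s) x + B'(s)`, `s = (⌊f'_1(k)⌋, …, ⌊f'_r(k)⌋)`, a sequence of members of any
polynomial family in any number of parameters. Here `f`, `f_i`, `f'_i` are ARBITRARY functions on the natural numbers of
orders `c > 0` (different ones for `f₁`, `f₂`, and for the `f'_i`): for some `d > c` the differences of order `d` have a
constant sign and are `n ^ (c - d + o(1))` in absolute value. There is no smoothness and no formula; examples are `n ^ c`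
with `c` not an integer, `n ^ j log n`, all functions of a Hardy field with the same growth, these plus arbitrary real
polynomials of degree below `d`, and irregular functions.

**Theorem.** For all `ε > 0` there is `η > 0` such that for large `N` for all but a proportion `ε` of the integers
`n ∈ (N, 2N]`:

1. `E_n` has no congruence at any level `m ≥ 2` with ANY elliptic curve `y² = x³ + ax + b`, `a`, `b`
   integers, with `|4a³ + 27b²| ≤ N ^ η`;
2. for ALL `M ≥ N`, `E_n` has congruences, at whatever level, with at most the proportion `N ^ (-η)` of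
   the curves `E'_k`, `k ∈ (M, 2M]`.

Moreover the `m`-torsion is not isomorphic over any number field `L` if `m` has a prime factor `l ≥ 3`
with `l > [L : ℚ]`.

The starting file `ThinSequences` has generalised polynomials with leading exponents which are not integers (over the
integers and over the primes).

Proof. By the derivative test of order `d` for functions without smoothness (helper828, `Pool.Agent.U828.KD.order_well`)
the vectors of the integer parts are equidistributed modulo all integers up to `N ^ κ`. Turan's sieve and Mertens' theorem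
for the roots of a polynomial show that for almost all `n` two primes `q₁ < q₂` in `(N ^ (2η), N ^ κ']` divide the
discriminant of `E_n` exactly once, and a curve with a congruence with `E_n` has bad reduction at `q₁` or `q₂` (starting
library, `Pool.Agent.N645.TF.thin_main`).
-/

set_option autoImplicit false

namespace Pool.Agent.Results.MP_f5d5f4_nt.FunctionsOfGivenOrder

open Polynomial
open Pool.Agent.Results.MP_f5d5f4_nt.FewDigitFamilies (NoCongruence)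

/-- The differences of order `d` of `f` have a constant sign and are `n ^ (c - d + o(1))` in absolute value. -/
def Order (d : ℕ) (c : ℝ) (f : ℕ → ℝ) : Prop :=
  ∀ ε : ℝ, 0 < ε → ∃ T : ℕ,
    (∀ n : ℕ, T ≤ n → (n : ℝ) ^ (c - d - ε) ≤ (fwdDiff 1)^[d] f n ∧
      (fwdDiff 1)^[d] f n ≤ (n : ℝ) ^ (c - d + ε)) ∨
    (∀ n : ℕ, T ≤ n → (n : ℝ) ^ (c - d - ε) ≤ -(fwdDiff 1)^[d] f n ∧
      -(fwdDiff 1)^[d] f n ≤ (n : ℝ) ^ (c - d + ε))

/-- `x n = (⌊f_1(n)⌋, …, ⌊f_r(n)⌋)` for arbitrary functions `f_i` of different orders between `0` and `d`. -/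
def Given {r : ℕ} (x : ℕ → Fin r → ℤ) : Prop :=
  ∃ (d : ℕ) (c : Fin r → ℝ) (f : Fin r → ℕ → ℝ), 2 ≤ d ∧ (∀ i, 0 < c i ∧ c i < d ∧ Order d (c i) (f i)) ∧
    Function.Injective c ∧ ∀ n i, x n i = ⌊f i n⌋

/-- The coefficients of `E_n`: all curves `y² = x³ + ax + b` at a given sequence of pairs `(a, b)`, or a
one-parameter family with an `I₁` fibre at a given sequence of parameters. -/
def Source (E : ℕ → ℤ × ℤ) : Prop :=
  (∃ x : ℕ → Fin 2 → ℤ, Given x ∧ ∀ n, E n = (x n 0, x n 1)) ∨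
  ∃ (x : ℕ → Fin 1 → ℤ) (A B P : ℤ[X]), Given x ∧ Irreducible P ∧ 0 < P.natDegree ∧
    P ∣ 4 * A ^ 3 + 27 * B ^ 2 ∧ ¬ P ^ 2 ∣ 4 * A ^ 3 + 27 * B ^ 2 ∧
    ∀ n, E n = (A.eval (x n 0), B.eval (x n 0))

/-- The coefficients of `E'_k`: a polynomial family of curves in any number of parameters at a given
sequence of parameters. -/
def Target (E' : ℕ → ℤ × ℤ) : Prop :=
  ∃ (r : ℕ) (x : ℕ → Fin (r + 1) → ℤ) (A' B' : MvPolynomial (Fin (r + 1)) ℤ), Given x ∧
    4 * A' ^ 3 + 27 * B' ^ 2 ≠ 0 ∧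
    ∀ k, E' k = (MvPolynomial.eval (x k) A', MvPolynomial.eval (x k) B')

/-- The integers of `(N, 2N]`. -/
def ints (N : ℕ) : Finset ℕ := Finset.Ioc N (2 * N)

/-- `E` has no congruences with elliptic curves of discriminant up to `N ^ η`, and for all `M ≥ N` with
all but the proportion `N ^ (-η)` of the curves `E' k` for the integers `k ∈ (M, 2M]`. -/
def Good (E : ℤ × ℤ) (E' : ℕ → ℤ × ℤ) (η : ℝ) (N : ℕ) : Prop :=
  (∀ a b : ℤ, 4 * a ^ 3 + 27 * b ^ 2 ≠ 0 → ((|4 * a ^ 3 + 27 * b ^ 2| : ℤ) : ℝ) ≤ (N : ℝ) ^ η →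
    NoCongruence E.1 E.2 a b) ∧
  ∀ M : ℕ, N ≤ M → ({k : ℕ | k ∈ ints M ∧ ¬ NoCongruence E.1 E.2 (E' k).1 (E' k).2}.ncard : ℝ) ≤
    (N : ℝ) ^ (-η) * (ints M).card

/-- the sequences are well distributed -/
lemma well {r : ℕ} {x : ℕ → Fin (r + 1) → ℤ} (h : Given x) :
    ∃ κ : ℝ, 0 < κ ∧ ∃ N₀ : ℕ, ∀ N : ℕ, N₀ ≤ N → ∀ H : ℕ, (H : ℝ) ≤ (N : ℝ) ^ κ →
      Pool.Agent.N666.TM.Well (ints N) x H := by
  obtain ⟨d, c, f, hd, h1, h2, h3⟩ := h
  have hx : x = fun n i => ⌊f i n⌋ := by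
    funext n i
    exact h3 n i
  rw [hx]
  exact Pool.Agent.U828.KD.order_well d hd c h2 (fun i => (h1 i).1) (fun i => (h1 i).2.1) f
    (fun i => (h1 i).2.2)

lemma no_cong {A B A' B' : ℤ} (h : Pool.Agent.N645.TF.T2 A B A' B') : NoCongruence A B A' B' :=
  FewDigitFamilies.no_congruence h

lemma main_aux {r r' : ℕ} (E : (Fin r → ℤ) → ℤ × ℤ) (hE : Pool.Agent.N645.TF.Src E)
    (A' B' : MvPolynomial (Fin (r' + 1)) ℤ) (hD : 4 * A' ^ 3 + 27 * B' ^ 2 ≠ 0)
    {x : ℕ → Fin r → ℤ} {x' : ℕ → Fin (r' + 1) → ℤ} (hx' : Given x')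
    (hw : ∃ κ : ℝ, 0 < κ ∧ ∃ N₀ : ℕ, ∀ N : ℕ, N₀ ≤ N → ∀ H : ℕ, (H : ℝ) ≤ (N : ℝ) ^ κ →
      Pool.Agent.N666.TM.Well (ints N) x H) (ε : ℝ) (hε : 0 < ε) :
    ∃ η₀ : ℝ, 0 < η₀ ∧ ∀ η : ℝ, 0 < η → η ≤ η₀ → ∃ N₀ : ℕ, ∀ N : ℕ, N₀ ≤ N →
      ({n : ℕ | n ∈ ints N ∧ ¬ Good (E (x n)) (fun k => (MvPolynomial.eval (x' k) A',
        MvPolynomial.eval (x' k) B')) η N}.ncard : ℝ) ≤ ε * (ints N).card := by
  obtain ⟨κ₁, hκ₁, hw₁⟩ := well hx'
  obtain ⟨κ, hκ, hw⟩ := hw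
  obtain ⟨η₁, hη₁, h₁⟩ := Pool.Agent.N645.TF.thin_main E hE A' B' hD hκ hκ₁ hw hw₁ ε hε
  refine ⟨η₁, hη₁, fun η hη hηle => ?_⟩
  obtain ⟨N₁, hN₁⟩ := h₁ η hη hηle
  refine ⟨N₁, fun N hN => ?_⟩
  have k1 := hN₁ N hN
  set E' : ℕ → ℤ × ℤ := fun k => (MvPolynomial.eval (x' k) A', MvPolynomial.eval (x' k) B') with hE'
  have hsub : {n : ℕ | n ∈ ints N ∧ ¬ Good (E (x n)) E' η N} ⊆
      {n : ℕ | n ∈ ints N ∧ ¬ Pool.Agent.N645.TF.Gd (E (x n)) ints E' η N} := by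
    rintro n ⟨hn, hn'⟩
    refine ⟨hn, fun g1 => hn' ⟨fun a b h0 hle => no_cong (g1.1 a b h0 ?_), fun M hM => ?_⟩⟩
    · refine le_trans (le_of_eq ?_) hle
      unfold Pool.Agent.W275.FM.dsc
      push_cast
      rfl
    · refine le_trans (Nat.cast_le.2 (Set.ncard_le_ncard ?_ ((Finset.finite_toSet (ints M)).subset
        fun k hk => hk.1))) (g1.2 M hM)
      rintro k ⟨hk, hk'⟩
      exact ⟨hk, fun h => hk' (no_cong h)⟩
  have hf1 : {n : ℕ | n ∈ ints N ∧ ¬ Pool.Agent.N645.TF.Gd (E (x n)) ints E' η N}.Finite :=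
    (Finset.finite_toSet (ints N)).subset fun k hk => hk.1
  exact le_trans (Nat.cast_le.2 (Set.ncard_le_ncard hsub hf1)) k1

/-- **No congruences along arbitrary functions of given orders.** -/
theorem result (E E' : ℕ → ℤ × ℤ) (hE : Source E) (hE' : Target E') (ε : ℝ) (hε : 0 < ε) :
    ∃ η : ℝ, 0 < η ∧ ∃ N₀ : ℕ, ∀ N : ℕ, N₀ ≤ N →
      ({n : ℕ | n ∈ ints N ∧ ¬ Good (E n) E' η N}.ncard : ℝ) ≤ ε * (ints N).card := by
  obtain ⟨r', x', A', B', hx', hD, hE'⟩ := hE'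
  have hE'' : E' = fun k => (MvPolynomial.eval (x' k) A', MvPolynomial.eval (x' k) B') :=
    funext hE'
  obtain ⟨r, x, E₀, hx, hsrc, hE₀⟩ : ∃ (r : ℕ) (x : ℕ → Fin (r + 1) → ℤ)
      (E₀ : (Fin (r + 1) → ℤ) → ℤ × ℤ), Given x ∧ Pool.Agent.N645.TF.Src E₀ ∧
      ∀ n, E n = E₀ (x n) := by
    rcases hE with ⟨x, hx, h⟩ | ⟨x, A, B, P, hx, hP, hd, h1, h2, h⟩
    · exact ⟨1, x, _, hx, Pool.Agent.N645.TF.src_two, h⟩
    · exact ⟨0, x, _, hx, Pool.Agent.N645.TF.src_one A B P hP hd h1 h2, h⟩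
  obtain ⟨η₁, hη₁, h₁⟩ := main_aux E₀ hsrc A' B' hD hx' (well hx) ε hε
  obtain ⟨N₁, hN₁⟩ := h₁ η₁ hη₁ le_rfl
  refine ⟨η₁, hη₁, N₁, fun N hN => ?_⟩
  rw [hE'']
  simp only [hE₀]
  exact hN₁ N hN

end Pool.Agent.Results.MP_f5d5f4_nt.FunctionsOfGivenOrder
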