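import Mathlib
import Pool.Agent.U964.ML.Ell

/-!
# Congruent elliptic curves near the rational points of a family have common bad places

Let `J = F / G` be a rational function over `ℚ` with two different poles `π`, `ρ` among the rational
points of the projective line, for example the `j`-invariant of an elliptic curve over `ℚ(T)` with
two rational fibres of multiplicative type. Let `τ` be a third rational point, `δ > 0` and `S` a finite
set of primes. There are `N` and a finite set of rational numbers such that for all other rational
numbers `x` near `τ`, that is `|x - τ| ≤ H(x) ^ (-δ)`, for all number fields `L`, all elliptic curves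
`E` over `L` with invariant `J(x)` (all twists), ALL elliptic curves `E'` over `L` and all primes
`p ≥ N`, `p > [L : ℚ]`:

if `L(E[p]) = L(E'[p])`, for example if `E[p]` and `E'[p]` are isomorphic Galois modules, then `E` and
`E'` have a common place of potentially multiplicative reduction above a prime outside `S`.

So `E` is not congruent modulo `p` to any curve `E'` with potentially good reduction outside `S`; these
`E'` have infinitely many different invariants. All integers `x ≠ 0` are near infinity: if `J` has two
finite rational poles, the statement holds for all but finitely many integers `x`.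

Proof. If there is no common place, all pole orders of `J(x)` at the primes outside `S ∪ {2, 3}` are
divisible by `p` (`Pool.Agent.Y673.FM.loc` of helper673, also for the prime `p`). By a comparison of
the local heights `(x - π) / (x - ρ) = u z ^ p` with an `S'`-unit `u` which cannot be controlled; its
exponents may be reduced to the interval `[0, p)`. As `x` is near `τ`, the linear form in several
logarithms `log u + p log z - log c`, `c = (τ - π) / (τ - ρ)`, is at most `H(x) ^ (-δ')`. The lower bound
`exp (- ε p h)`, `h` the height of `z`, for forms of this kind (`Pool.Agent.U964.ML.many_log`) is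
reduced to two logarithms: by simultaneous approximation and reduction of a lattice of rank two the
vector of the coefficients is a combination `a₁ X₁ + a₂ X₂` with short `X₁`, `X₂`, and the form is
`a₁ log α₁ + a₂ log α₂`, where the product of the heights of `α₁` and `α₂` is small compared with `p h`.
For two logarithms a bound is proved which is linear in both heights (interpolation determinant with
binomial polynomials, after `Pool/Agent/H440R2` of helper440). This bounds the height of `x`, also if
`x` is much smaller than `exp p`; then `z = 1` and `u` has exponents of the size of `log H(x)`.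
-/

set_option autoImplicit false

open NumberField IsDedekindDomain Polynomial
open scoped Classical

namespace Pool.Agent.Results.MP_f5d5f4_nt.NearRationalPoints

section
variable {K : Type} [Field K]

/-- The curve `y² = x³ + Ax + B` over the field `K`. -/
def curve (A B : K) : WeierstrassCurve K := ⟨0, 0, 0, A, B⟩

/-- Its `j`-invariant. -/
noncomputable def jInvariant (A B : K) : K := 6912 * A ^ 3 / (4 * A ^ 3 + 27 * B ^ 2)

/-- The group of its points over the algebraic closure of `K`. -/
abbrev Points (A B : K) : Type := ((curve A B).baseChange (AlgebraicClosure K)).toAffine.Point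

/-- The action of a `K`-automorphism `σ` of the algebraic closure on the points. -/
noncomputable def galois (A B : K) (σ : AlgebraicClosure K ≃ₐ[K] AlgebraicClosure K) :
    Points A B →+ Points A B :=
  WeierstrassCurve.Affine.Point.map (σ : AlgebraicClosure K →ₐ[K] AlgebraicClosure K)

/-- The curves `y² = x³ + Ax + B` and `y² = x³ + A'x + B'` have the same `n`-division field: an
automorphism fixes all points killed by `n` of the first if and only if it fixes all points killed
by `n` of the second. -/
def SameDivisionField (n : ℕ) (A B A' B' : K) : Prop :=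
  ∀ σ : AlgebraicClosure K ≃ₐ[K] AlgebraicClosure K,
    (∀ P : Points A B, n • P = 0 → galois A B σ P = P) ↔
      (∀ P : Points A' B', n • P = 0 → galois A' B' σ P = P)

/-- The `n`-torsion of `y² = x³ + Ax + B` and that of `y² = x³ + A'x + B'` are isomorphic as Galois
modules: some map between the groups of points restricts to a bijective additive map of the
`n`-torsion which commutes with the Galois group. -/
def Congruent (n : ℕ) (A B A' B' : K) : Prop :=
  ∃ f : Points A B → Points A' B', (∀ P Q, n • P = 0 → n • Q = 0 → f (P + Q) = f P + f Q) ∧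
    Set.BijOn f {P | n • P = 0} {Q | n • Q = 0} ∧
    ∀ (σ : AlgebraicClosure K ≃ₐ[K] AlgebraicClosure K) (P : Points A B), n • P = 0 →
      f (galois A B σ P) = galois A' B' σ (f P)

/-- The curve `y² = x³ + Ax + B` over the number field `K` has potentially multiplicative reduction at
the place `w`: its invariant is not integral at `w`. -/
def PotentiallyMultiplicative [NumberField K] (w : HeightOneSpectrum (𝓞 K)) (A B : K) : Prop :=
  1 < w.valuation K (jInvariant A B)

/-- The curves `y² = x³ + Ax + B` and `y² = x³ + A'x + B'` over the number field `K` both have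
potentially multiplicative reduction at some place `w` above a prime `q` outside `S`. -/
def CommonPlace [NumberField K] (S : Finset ℕ) (A B A' B' : K) : Prop :=
  ∃ q : ℕ, q.Prime ∧ q ∉ S ∧ ∃ w : HeightOneSpectrum (𝓞 K), (q : 𝓞 K) ∈ w.asIdeal ∧
    PotentiallyMultiplicative w A B ∧ PotentiallyMultiplicative w A' B'

end

/-- `π` is a pole of `F / G` (`F`, `G` coprime) on the projective line; `none` is the point at
infinity. -/
def IsPole (F G : ℚ[X]) : Option ℚ → Prop
  | none => G.natDegree < F.natDegree
  | some r => G.eval r = 0

/-- The height `H(x) = max (|numerator|, denominator)`. -/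
noncomputable def H (x : ℚ) : ℝ := max |(x.num : ℝ)| (x.den : ℝ)

/-- `x` is near `τ`: `|x - τ| ≤ H(x) ^ (-δ)`, and `|x| ≥ H(x) ^ δ` if `τ` is the point at infinity. -/
def IsNear : Option ℚ → ℝ → ℚ → Prop
  | none, δ, x => H x ^ δ ≤ |(x : ℝ)|
  | some t, δ, x => |(x : ℝ) - t| ≤ H x ^ (-δ)

/-- Over some number field `L` and for some prime `p ≥ N`, `p > [L : ℚ]`, there is an elliptic curve
`E` with the invariant `j` and an elliptic curve `E'` with the same `p`-division field such that `E` and
`E'` have no common place of potentially multiplicative reduction above a prime outside `S`. -/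
def Exceptional (N : ℕ) (S : Finset ℕ) (j : ℚ) : Prop :=
  ∃ (L : Type) (_ : Field L) (_ : NumberField L) (p : ℕ) (A B A' B' : L), p.Prime ∧ N ≤ p ∧
    Module.finrank ℚ L < p ∧ 4 * A ^ 3 + 27 * B ^ 2 ≠ 0 ∧ 4 * A' ^ 3 + 27 * B' ^ 2 ≠ 0 ∧
    jInvariant A B = (j : L) ∧ SameDivisionField p A B A' B' ∧ ¬ CommonPlace S A B A' B'

theorem ht_eq (x : ℚ) : ((Pool.Agent.U964.LF.ht x : ℕ) : ℝ) = H x := by
  unfold Pool.Agent.U964.LF.ht H
  push_cast
  rw [Nat.cast_natAbs, Int.cast_abs]

theorem near_iff (τ : Option ℚ) (δ : ℝ) (x : ℚ) (h : IsNear τ δ x) :
    Pool.Agent.U964.LF.IsNear τ δ x := by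
  cases τ with
  | none =>
    show ((Pool.Agent.U964.LF.ht x : ℕ) : ℝ) ^ δ ≤ |(x : ℝ)|
    rw [ht_eq]
    exact h
  | some t =>
    show |(x : ℝ) - t| ≤ ((Pool.Agent.U964.LF.ht x : ℕ) : ℝ) ^ (-δ)
    rw [ht_eq]
    exact h

theorem pole_iff (F G : ℚ[X]) (π : Option ℚ) (h : IsPole F G π) :
    Pool.Agent.U964.LF.IsPole F G π := by
  cases π with
  | none => exact h
  | some r => exact h

/-- isomorphic torsion modules give equal division fields -/
theorem same_of_congruent {K : Type} [Field K] {A B A' B' : K} {m p : ℕ} (hpm : p ∣ m)
    (h : Congruent m A B A' B') : SameDivisionField p A B A' B' := by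
  obtain ⟨f, hadd, hbij, hgal⟩ := h
  have hm0 : ∀ P : Points A B, p • P = 0 → m • P = 0 := by
    intro P hP
    obtain ⟨k, rfl⟩ := hpm
    rw [mul_comm, mul_smul, hP, nsmul_zero]
  have hm0' : ∀ P : Points A' B', p • P = 0 → m • P = 0 := by
    intro P hP
    obtain ⟨k, rfl⟩ := hpm
    rw [mul_comm, mul_smul, hP, nsmul_zero]
  have hf0 : f 0 = 0 := by
    have h1 := hadd 0 0 (nsmul_zero _) (nsmul_zero _)
    rw [add_zero] at h1
    exact (add_eq_left.1 h1.symm)
  have hmul : ∀ (k : ℕ) (P : Points A B), m • P = 0 → f (k • P) = k • f P := by
    intro k P hP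
    induction k with
    | zero => rw [zero_nsmul, zero_nsmul, hf0]
    | succ k ih =>
      rw [succ_nsmul, succ_nsmul, hadd _ _ (by rw [smul_comm, hP, nsmul_zero]) hP, ih]
  have hp : ∀ P : Points A B, m • P = 0 → (p • P = 0 ↔ p • f P = 0) := by
    intro P hP
    constructor
    · intro h
      rw [← hmul p P hP, h, hf0]
    · intro h
      rw [← hmul p P hP] at h
      refine hbij.injOn (show p • P ∈ {P : Points A B | m • P = 0} from ?_)
        (show (0 : Points A B) ∈ {P : Points A B | m • P = 0} from nsmul_zero _) ?_
      · show m • p • P = 0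
        rw [smul_comm, hP, nsmul_zero]
      · rw [h, hf0]
  intro σ
  constructor
  · intro h Q hQ
    obtain ⟨P, hP, rfl⟩ := hbij.surjOn (show Q ∈ {Q : Points A' B' | m • Q = 0} from hm0' Q hQ)
    rw [← hgal σ P hP, h P ((hp P hP).2 hQ)]
  · intro h P hP
    have hP' := hm0 P hP
    have h3 : m • galois A B σ P = 0 := by
      rw [← map_nsmul, hP', map_zero]
    refine hbij.injOn (show galois A B σ P ∈ {P : Points A B | m • P = 0} from h3)
      (show P ∈ {P : Points A B | m • P = 0} from hP') ?_
    rw [hgal σ P hP']
    exact h _ ((hp P hP').1 hP)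

/-- **Main theorem.** Let `J = F / G` be a rational function over `ℚ`, `F`, `G` coprime, `π`, `ρ` two
different poles of `J` among the rational points of the projective line, `τ` a rational point different
from `π` and `ρ`, `δ > 0` and `S` a finite set.
(1) There is `N` such that only finitely many rational numbers `x` near `τ`, `G(x) ≠ 0`, are
exceptional: for all others, if over a number field `L` an elliptic curve `E` with the invariant
`J(x)` and any elliptic curve `E'` have the same `p`-division field, `p ≥ N`, `p > [L : ℚ]` a prime,
then `E` and `E'` have a common place of potentially multiplicative reduction above a prime outside `S`.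
(2) Two elliptic curves over a field which are congruent modulo `n` have the same `p`-division field
for all `p ∣ n`. -/
theorem result (F G : ℚ[X]) (hcop : IsCoprime F G) (hG : G ≠ 0) (π ρ τ : Option ℚ)
    (hπρ : π ≠ ρ) (hρτ : ρ ≠ τ) (hτπ : τ ≠ π) (hπ : IsPole F G π) (hρ : IsPole F G ρ) (δ : ℝ)
    (hδ : 0 < δ) (S : Finset ℕ) :
    (∃ N : ℕ, {x : ℚ | G.eval x ≠ 0 ∧ IsNear τ δ x ∧
      Exceptional N S (F.eval x / G.eval x)}.Finite) ∧
    ∀ (K : Type) [Field K] (A B A' B' : K) (n p : ℕ), p ∣ n → Congruent n A B A' B' →
      SameDivisionField p A B A' B' := by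
  refine ⟨?_, fun K _ A B A' B' n p hpn h => same_of_congruent hpn h⟩
  obtain ⟨N, B, -, hN⟩ := Pool.Agent.U964.ML.ell_S F G hcop hG π ρ τ hπρ hρτ hτπ
    (pole_iff F G π hπ) (pole_iff F G ρ hρ) δ hδ S
  refine ⟨N, (Pool.Agent.U964.LF.finite_ht B).subset ?_⟩
  rintro x ⟨hGx, hnear, L, iF, iN, p, a, b, a', b', hp, hNp, hL, hD, hD', hj, hsame, hno⟩
  show Pool.Agent.U964.LF.ht x ≤ B
  refine hN x hGx (near_iff τ δ x hnear) L p hp hNp hL a b a' b' hD hD' hj hsame ?_
  intro q hq hqS w hw h1
  by_contra h2
  exact hno ⟨q, hq, hqS, w, hw, h1, not_le.1 h2⟩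

end Pool.Agent.Results.MP_f5d5f4_nt.NearRationalPoints
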