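import Pool.Agent.U964.FM.Pair
import Pool.Agent.U964.FM.PLoc

/-!
# Congruent pairs of sparse fibres of two families lie on a fixed curve

Let `J_i = A_i / D_i`, `i = 0, 1`, be two rational functions over `ℚ` with `γ_i` poles, none of them at
infinity, for example the invariants of two one-parameter families of elliptic curves with `γ_i`
fibres of (potentially) multiplicative reduction; `N_i = deg J_i`. Suppose `1 / γ_0 + 1 / γ_1 < 1 / 2`,
for example `γ_0 = γ_1 = 5`, or `4`, `5`, or `3`, `7`. We consider pairs `x = (x_0, x_1)` of rational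
numbers, number fields `K` and elliptic curves `E_i` over `K` with the invariants `J_i(x_i)` (all
twists) which are congruent modulo a prime `ℓ > [K : ℚ]`, `ℓ ≥ ℓ₀`, or which only have the same
`ℓ`-division field over `K`.

Let `S` be a finite set of primes. A number is called sparse if it is a sum of at most `l` `S`-units
with small integer coefficients, at most `B max (H(x_0), H(x_1)) ^ δ`. The pair `x` is called sparse
if the numerators and denominators of the `x_i`, a multiple `κ R` of the product `R` of the primes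
outside `S` at which some `x_i` meets a pole of `J_i`, and the cofactor `(κ R) ^ m / (G_0 G_1)`, where
`G_i` is the value at `x_i` of the form with the zeros at the poles, are sparse, and
`κ ≤ B max H(x_i) ^ θ`.

There is a nonzero polynomial `Ψ` in two variables such that only finitely many sparse pairs with
`Ψ(x) ≠ 0` admit such `K`, `ℓ`, `E_0`, `E_1`: congruences between sparse fibres modulo large primes
occur only on a fixed curve (it contains the diagonal if `J_0 = J_1`), and the heights of the other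
ones are bounded.
-/

set_option autoImplicit false

open WeierstrassCurve NumberField Polynomial
open scoped Classical

namespace Pool.Agent.Results.MP_f5d5f4_nt.SparsePairsOfFibres

section
variable {K : Type} [Field K]

/-- The curve `y² = x³ + Ax + B` over `K`. -/
def curve (A B : K) : WeierstrassCurve K := ⟨0, 0, 0, A, B⟩

/-- The group of its points over the algebraic closure of `K`. -/
abbrev Points (A B : K) : Type := ((curve A B).baseChange (AlgebraicClosure K)).toAffine.Point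

/-- The action of a `K`-automorphism `σ` of the algebraic closure on the points. -/
noncomputable def galois (A B : K) (σ : AlgebraicClosure K ≃ₐ[K] AlgebraicClosure K) :
    Points A B →+ Points A B :=
  WeierstrassCurve.Affine.Point.map (σ : AlgebraicClosure K →ₐ[K] AlgebraicClosure K)

/-- The curves `y² = x³ + Ax + B` and `y² = x³ + A'x + B'` have the same `n`-division field: an
automorphism fixes all points killed by `n` of the first if and only if it fixes all points killed
by `n` of the second. -/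
def SameDivisionField (n : ℕ) (A B A' B' : K) : Prop :=
  ∀ σ : AlgebraicClosure K ≃ₐ[K] AlgebraicClosure K,
    (∀ P : Points A B, n • P = 0 → galois A B σ P = P) ↔
      (∀ P : Points A' B', n • P = 0 → galois A' B' σ P = P)

/-- The `n`-torsion of `y² = x³ + Ax + B` and that of `y² = x³ + A'x + B'` are isomorphic as Galois
modules: some map between the groups of points restricts to a bijective additive map of the
`n`-torsion which commutes with the Galois group. -/
def Congruent (n : ℕ) (A B A' B' : K) : Prop :=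
  ∃ f : Points A B → Points A' B', (∀ P Q, n • P = 0 → n • Q = 0 → f (P + Q) = f P + f Q) ∧
    Set.BijOn f {P | n • P = 0} {Q | n • Q = 0} ∧
    ∀ (σ : AlgebraicClosure K ≃ₐ[K] AlgebraicClosure K) (P : Points A B), n • P = 0 →
      f (galois A B σ P) = galois A' B' σ (f P)

/-- The invariant of `y² = x³ + Ax + B`. -/
noncomputable def jInvariant (A B : K) : K := 6912 * A ^ 3 / (4 * A ^ 3 + 27 * B ^ 2)

end

/-- the height `H(x) = max (|numerator|, denominator)` of a rational number -/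
noncomputable def H (x : ℚ) : ℝ := max |(x.num : ℝ)| (x.den : ℝ)

/-- The value `∑ g_i s ^ i t ^ (γ - i)` at `x = s / t` of the binary form of the polynomial `g` of
degree `γ`. -/
noncomputable def G (g : ℤ[X]) (x : ℚ) : ℤ :=
  ∑ i ∈ Finset.range (g.natDegree + 1), g.coeff i * x.num ^ i * (x.den : ℤ) ^ (g.natDegree - i)

/-- the product of the primes outside `S` which divide `G_0(x_0) G_1(x_1)` -/
noncomputable def radical (S : Finset ℕ) (g : Fin 2 → ℤ[X]) (x : Fin 2 → ℚ) : ℕ :=
  ∏ p ∈ (G (g 0) (x 0) * G (g 1) (x 1)).natAbs.primeFactors \ S, p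

/-- `u` is an `S`-unit: plus or minus a product of powers (with integer exponents) of the primes in
`S` -/
def IsSUnit (S : Finset ℕ) (u : ℚ) : Prop :=
  ∃ (σ : ℤ) (e : ℕ → ℤ), (σ = 1 ∨ σ = -1) ∧ u = σ * ∏ p ∈ S, (p : ℚ) ^ e p

/-- the rational number `z` is a sum of `l` `S`-units with integer coefficients of absolute value at
most `R` -/
def IsSparse (S : Finset ℕ) (l : ℕ) (R : ℝ) (z : ℚ) : Prop :=
  ∃ (u : Fin l → ℚ) (c : Fin l → ℤ), (∀ j, IsSUnit S (u j)) ∧ (∀ j, |(c j : ℝ)| ≤ R) ∧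
    z = ∑ j, u j * c j

/-- The sparse pairs `x`: for some positive integer `κ ≤ B max H(x_i) ^ θ` the numerators and the
denominators of `x_0` and `x_1`, the multiple `κ R` of the radical `R` of `G_0(x_0) G_1(x_1)` and the
cofactor `(κ R) ^ m / (G_0(x_0) G_1(x_1))` are sums of `l` `S`-units with integer coefficients of
absolute value at most `B max H(x_i) ^ δ`. -/
def IsSparsePair (S : Finset ℕ) (l m : ℕ) (B θ δ : ℝ) (g : Fin 2 → ℤ[X]) (x : Fin 2 → ℚ) : Prop :=
  G (g 0) (x 0) ≠ 0 ∧ G (g 1) (x 1) ≠ 0 ∧ ∃ κ : ℕ, 0 < κ ∧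
    (κ : ℝ) ≤ B * (max (H (x 0)) (H (x 1))) ^ θ ∧
    (∀ i, IsSparse S l (B * (max (H (x 0)) (H (x 1))) ^ δ) (x i).num ∧
      IsSparse S l (B * (max (H (x 0)) (H (x 1))) ^ δ) (x i).den) ∧
    IsSparse S l (B * (max (H (x 0)) (H (x 1))) ^ δ) (κ * radical S g x : ℕ) ∧
    IsSparse S l (B * (max (H (x 0)) (H (x 1))) ^ δ)
      (((κ * radical S g x : ℕ) : ℚ) ^ m / (G (g 0) (x 0) * G (g 1) (x 1) : ℤ))

/-- `y² = X³ + aX + b` is an elliptic curve over `K` with the invariant `A(x) / D(x)`, `D(x) ≠ 0`. -/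
def IsFibre {K : Type} [Field K] (A D : ℤ[X]) (x : ℚ) (a b : K) : Prop :=
  aeval x D ≠ 0 ∧ 4 * a ^ 3 + 27 * b ^ 2 ≠ 0 ∧ jInvariant a b = ((aeval x A / aeval x D : ℚ) : K)

/-- isomorphic torsion modules give equal division fields -/
theorem same_of_congruent {K : Type} [Field K] {A B A' B' : K} {m p : ℕ} (hpm : p ∣ m)
    (h : Congruent m A B A' B') : SameDivisionField p A B A' B' := by
  obtain ⟨f, hadd, hbij, hgal⟩ := h
  have hm0 : ∀ P : Points A B, p • P = 0 → m • P = 0 := by
    intro P hP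
    obtain ⟨k, rfl⟩ := hpm
    rw [mul_comm, mul_smul, hP, nsmul_zero]
  have hm0' : ∀ P : Points A' B', p • P = 0 → m • P = 0 := by
    intro P hP
    obtain ⟨k, rfl⟩ := hpm
    rw [mul_comm, mul_smul, hP, nsmul_zero]
  have hf0 : f 0 = 0 := by
    have h1 := hadd 0 0 (nsmul_zero _) (nsmul_zero _)
    rw [add_zero] at h1
    exact (add_eq_left.1 h1.symm)
  have hmul : ∀ (k : ℕ) (P : Points A B), m • P = 0 → f (k • P) = k • f P := by
    intro k P hP
    induction k with
    | zero => rw [zero_nsmul, zero_nsmul, hf0]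
    | succ k ih =>
      rw [succ_nsmul, succ_nsmul, hadd _ _ (by rw [smul_comm, hP, nsmul_zero]) hP, ih]
  have hp : ∀ P : Points A B, m • P = 0 → (p • P = 0 ↔ p • f P = 0) := by
    intro P hP
    constructor
    · intro h
      rw [← hmul p P hP, h, hf0]
    · intro h
      rw [← hmul p P hP] at h
      refine hbij.injOn (show p • P ∈ {P : Points A B | m • P = 0} from ?_)
        (show (0 : Points A B) ∈ {P : Points A B | m • P = 0} from nsmul_zero _) ?_
      · show m • p • P = 0
        rw [smul_comm, hP, nsmul_zero]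
      · rw [h, hf0]
  intro σ
  constructor
  · intro h Q hQ
    obtain ⟨P, hP, rfl⟩ := hbij.surjOn (show Q ∈ {Q : Points A' B' | m • Q = 0} from hm0' Q hQ)
    rw [← hgal σ P hP, h P ((hp P hP).2 hQ)]
  · intro h P hP
    have hP' := hm0 P hP
    have h3 : m • galois A B σ P = 0 := by
      rw [← map_nsmul, hP', map_zero]
    refine hbij.injOn (show galois A B σ P ∈ {P : Points A B | m • P = 0} from h3)
      (show P ∈ {P : Points A B | m • P = 0} from hP') ?_
    rw [hgal σ P hP']
    exact h _ ((hp P hP').1 hP)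

theorem one_le_H (x : ℚ) : 1 ≤ H x := by
  refine le_max_of_le_right ?_
  exact_mod_cast x.den_pos

theorem finite_height (T : ℝ) : {x : ℚ | H x ≤ T}.Finite := by
  refine (NumberField.finite_setOfPred_logHeight₁_le (K := ℚ) (Real.log T)).subset ?_
  intro x hx
  have hH : 0 < H x := lt_max_of_lt_right (by exact_mod_cast x.den_pos)
  show Height.logHeight₁ x ≤ Real.log T
  have e : Height.logHeight₁ x = Real.log (H x) := by
    rw [Rat.logHeight₁_eq_log_max]
    unfold H
    congr 1
    push_cast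
    rw [Nat.cast_natAbs, Int.cast_abs]
  rw [e]
  exact Real.log_le_log hH hx

/-- **Main theorem.** Let `J_i = A_i / D_i`, `i = 0, 1`, be rational functions over `ℚ` in lowest
terms, `deg A_i ≤ deg D_i = N_i`, and `g_i` squarefree polynomials of degrees `γ_i ≥ 2` with the same
zeros as `D_i`. Let `S` be a finite set of primes, `θ ≥ 0`, `ε > 0`, `c_i = γ_i (1/2 - 1/γ_0 - 1/γ_1)`.
There are `δ > 0`, a constant `C` and a nonzero polynomial `Ψ` such that
(1) `∑ (c_i - θ - ε - N_i / ℓ) log H(x_i) ≤ C` for all sparse pairs `x` with `Ψ(x) ≠ 0`, if over some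
number field `K` there are elliptic curves with the invariants `J_0(x_0)` and `J_1(x_1)` with the same
`ℓ`-division field, `ℓ ≥ 13` a prime, `ℓ > [K : ℚ]`;
(2) if `N_i / ℓ₀ + θ + ε < c_i` for `i = 0, 1`, then only finitely many sparse pairs `x` with
`Ψ(x) ≠ 0` have this property for some `K` and some `ℓ ≥ ℓ₀`;
(3) two curves congruent modulo a multiple of `ℓ` have the same `ℓ`-division field. -/
theorem result (A D g : Fin 2 → ℤ[X]) (hA : ∀ i, (A i).natDegree ≤ (D i).natDegree)
    (hD0 : ∀ i, D i ≠ 0)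
    (hcop : ∀ i, IsCoprime ((A i).map (Int.castRingHom ℚ)) ((D i).map (Int.castRingHom ℚ)))
    (h2 : ∀ i, 2 ≤ (g i).natDegree) (hsq : ∀ i, Squarefree ((g i).map (Int.castRingHom ℚ)))
    (hgD : ∀ i, (g i).map (Int.castRingHom ℚ) ∣ (D i).map (Int.castRingHom ℚ))
    (hDg : ∀ i, ∃ k : ℕ, (D i).map (Int.castRingHom ℚ) ∣ (g i).map (Int.castRingHom ℚ) ^ k)
    (S : Finset ℕ) (hS : ∀ p ∈ S, p.Prime) (l m : ℕ) (B θ ε : ℝ) (hθ : 0 ≤ θ) (hε : 0 < ε)
    (c : Fin 2 → ℝ) (hc : ∀ i, c i = (g i).natDegree *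
      (1 / 2 - 1 / ((g 0).natDegree : ℝ) - 1 / ((g 1).natDegree : ℝ))) :
    ∃ (δ C : ℝ) (Ψ : MvPolynomial (Fin 2) ℚ), 0 < δ ∧ Ψ ≠ 0 ∧
      (∀ x : Fin 2 → ℚ, IsSparsePair S l m B θ δ g x → MvPolynomial.aeval x Ψ ≠ 0 →
        ∀ (K : Type) [Field K] [NumberField K] (a b : Fin 2 → K),
        (∀ i, IsFibre (A i) (D i) (x i) (a i) (b i)) →
        ∀ ℓ : ℕ, ℓ.Prime → 13 ≤ ℓ → Module.finrank ℚ K < ℓ →
        SameDivisionField ℓ (a 0) (b 0) (a 1) (b 1) →
          ∑ i, (c i - θ - ε - ((D i).natDegree : ℝ) / ℓ) * Real.log (H (x i)) ≤ C) ∧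
      (∀ ℓ₀ : ℕ, 13 ≤ ℓ₀ → (∀ i, ((D i).natDegree : ℝ) / ℓ₀ + θ + ε < c i) →
        {x : Fin 2 → ℚ | IsSparsePair S l m B θ δ g x ∧ MvPolynomial.aeval x Ψ ≠ 0 ∧
          ∃ (K : Type) (_ : Field K) (_ : NumberField K) (a b : Fin 2 → K) (ℓ : ℕ),
            (∀ i, IsFibre (A i) (D i) (x i) (a i) (b i)) ∧ ℓ.Prime ∧ ℓ₀ ≤ ℓ ∧
            Module.finrank ℚ K < ℓ ∧ SameDivisionField ℓ (a 0) (b 0) (a 1) (b 1)}.Finite) ∧
      (∀ (K : Type) [Field K] [NumberField K] (a b : Fin 2 → K) (n ℓ : ℕ), ℓ ∣ n →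
        Congruent n (a 0) (b 0) (a 1) (b 1) → SameDivisionField ℓ (a 0) (b 0) (a 1) (b 1)) := by
  obtain ⟨δ, C, Ψ, hδ, hΨ, hmain⟩ := Pool.Agent.U964.FM.pair1 A D g (fun i => (D i).natDegree)
    (fun i => (g i).natDegree) hA (fun _ => rfl) hD0 hcop (fun _ => rfl) h2 hsq hgD hDg S hS l m
    B ε hε
  have hone : ∀ x : Fin 2 → ℚ, IsSparsePair S l m B θ δ g x → MvPolynomial.aeval x Ψ ≠ 0 →
      ∀ (K : Type) [Field K] [NumberField K] (a b : Fin 2 → K),
      (∀ i, IsFibre (A i) (D i) (x i) (a i) (b i)) →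
      ∀ ℓ : ℕ, ℓ.Prime → 13 ≤ ℓ → Module.finrank ℚ K < ℓ →
      SameDivisionField ℓ (a 0) (b 0) (a 1) (b 1) →
        ∑ i, (c i - θ - ε - ((D i).natDegree : ℝ) / ℓ) * Real.log (H (x i)) ≤
          C + Real.log B := by
    intro x hx hΨx K _ _ a b hfib ℓ hℓ h13 hn hsame
    obtain ⟨hG0, hG1, κ, hκ, hκB, h12, h3, h4⟩ := hx
    have hsame' : SameDivisionField ℓ (a 1) (b 1) (a 0) (b 0) := fun σ => (hsame σ).symm
    have hden0 : ∀ i, ((x i).den : ℤ) ≠ 0 := fun i => by exact_mod_cast (x i).den_nz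
    have hxe : ∀ i, (((x i).num : ℚ) / (((x i).den : ℤ) : ℚ)) = x i := fun i => by
      rw [Int.cast_natCast]; exact Rat.num_div_den (x i)
    have htN : ∀ i, ((((x i).den : ℤ) : ℚ)) ^ (D i).natDegree ≠ 0 := fun i =>
      pow_ne_zero _ (by exact_mod_cast hden0 i)
    have eA : ∀ i, ((Pool.Agent.Y670.RD.fv (D i).natDegree (A i) (x i).num (x i).den : ℤ) : ℚ) =
        ((((x i).den : ℤ) : ℚ)) ^ (D i).natDegree * aeval (x i) (A i) := fun i => by
      have := Pool.Agent.Y670.RD.fvq (hA i) (s := (x i).num) (hden0 i)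
      rwa [hxe] at this
    have eD : ∀ i, ((Pool.Agent.Y670.RD.fv (D i).natDegree (D i) (x i).num (x i).den : ℤ) : ℚ) =
        ((((x i).den : ℤ) : ℚ)) ^ (D i).natDegree * aeval (x i) (D i) := fun i => by
      have := Pool.Agent.Y670.RD.fvq (N := (D i).natDegree) (f := D i) le_rfl (s := (x i).num)
        (hden0 i)
      rwa [hxe] at this
    have hF0 : ∀ i, Pool.Agent.Y670.RD.fv (D i).natDegree (D i) (x i).num (x i).den ≠ 0 := by
      intro i h
      have h5 := eD i
      rw [h, Int.cast_zero] at h5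
      exact mul_ne_zero (htN i) (hfib i).1 h5.symm
    have hj' : ∀ i, Pool.Agent.Y673.Loc.jv (a i) (b i) =
        ((Pool.Agent.Y670.RD.fv (D i).natDegree (A i) (x i).num (x i).den : ℤ) : K) /
        ((Pool.Agent.Y670.RD.fv (D i).natDegree (D i) (x i).num (x i).den : ℤ) : K) := by
      intro i
      have hJ : (aeval (x i) (A i) / aeval (x i) (D i) : ℚ) =
          (Pool.Agent.Y670.RD.fv (D i).natDegree (A i) (x i).num (x i).den : ℚ) /
            Pool.Agent.Y670.RD.fv (D i).natDegree (D i) (x i).num (x i).den := by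
        rw [eA, eD]
        have h5 := htN i
        have h6 := (hfib i).1
        field_simp
      have e : Pool.Agent.Y673.Loc.jv (a i) (b i) = jInvariant (a i) (b i) := rfl
      rw [e, (hfib i).2.2, hJ]
      push_cast
      rfl
    have hm := hmain x κ (((κ * radical S g x : ℕ) : ℚ) ^ m / (G (g 0) (x 0) * G (g 1) (x 1) : ℤ))
      hκ (by
        intro i
        fin_cases i
        · exact hG0
        · exact hG1) hΨx (max (H (x 0)) (H (x 1))) rfl (by
        have hne : (((G (g 0) (x 0) * G (g 1) (x 1) : ℤ)) : ℚ) ≠ 0 := by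
          exact_mod_cast mul_ne_zero hG0 hG1
        change ((κ * radical S g x : ℕ) : ℚ) ^ m = (G (g 0) (x 0) : ℚ) * (G (g 1) (x 1) : ℚ) *
          (((κ * radical S g x : ℕ) : ℚ) ^ m / (G (g 0) (x 0) * G (g 1) (x 1) : ℤ))
        rw [← Int.cast_mul, mul_div_assoc', mul_div_assoc, mul_div_cancel₀]
        · exact hne) h12 h3 h4 ℓ hℓ.pos hF0 (by
        intro i j hij p hp hp2 hp3 hpA hpD hpDj
        have hsij : SameDivisionField ℓ (a i) (b i) (a j) (b j) := by
          fin_cases i <;> fin_cases j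
          · exact absurd rfl hij
          · exact hsame
          · exact hsame'
          · exact absurd rfl hij
        exact Pool.Agent.U964.FM.pole_dvd (hfib i).2.1 (hfib j).2.1 hℓ h13 hn hsij (hj' i) (hj' j)
          (hF0 i) hp hp2 hp3 hpA hpD hpDj)
    obtain ⟨h, hh⟩ : ∃ h : Fin 2 → ℝ, ∀ i, h i = Real.log (H (x i)) := ⟨_, fun _ => rfl⟩
    have hHpos : ∀ i, 0 < H (x i) := fun i => lt_of_lt_of_le one_pos (one_le_H _)
    have hh0 : ∀ i, 0 ≤ h i := fun i => by
      rw [hh]
      exact Real.log_nonneg (one_le_H _)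
    have hm' : ((g 0).natDegree * (1 / 2 - 1 / ((g 0).natDegree : ℝ) - 1 / ((g 1).natDegree : ℝ)) -
        ε - ((D 0).natDegree : ℝ) / ℓ) * Real.log (H (x 0)) +
        ((g 1).natDegree * (1 / 2 - 1 / ((g 0).natDegree : ℝ) - 1 / ((g 1).natDegree : ℝ)) -
        ε - ((D 1).natDegree : ℝ) / ℓ) * Real.log (H (x 1)) ≤ Real.log κ + C := hm
    rw [← hc 0, ← hc 1, ← hh 0, ← hh 1] at hm'
    have hκ1 : (1 : ℝ) ≤ κ := by exact_mod_cast hκ
    have hMp : 0 < max (H (x 0)) (H (x 1)) := lt_max_of_lt_left (hHpos 0)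
    have hHθ : 0 < (max (H (x 0)) (H (x 1))) ^ θ := Real.rpow_pos_of_pos hMp _
    have hB : 0 < B := by
      by_contra hB
      have h5 : B * (max (H (x 0)) (H (x 1))) ^ θ ≤ 0 :=
        mul_nonpos_of_nonpos_of_nonneg (not_lt.1 hB) hHθ.le
      linarith
    have hlogM : Real.log (max (H (x 0)) (H (x 1))) ≤ h 0 + h 1 := by
      rcases le_total (H (x 0)) (H (x 1)) with h5 | h5
      · rw [max_eq_right h5, ← hh 1]
        have := hh0 0
        linarith
      · rw [max_eq_left h5, ← hh 0]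
        have := hh0 1
        linarith
    have hlogκ : Real.log κ ≤ Real.log B + θ * (h 0 + h 1) := by
      have h5 := Real.log_le_log (by linarith) hκB
      rw [Real.log_mul hB.ne' hHθ.ne', Real.log_rpow hMp] at h5
      have h6 := mul_le_mul_of_nonneg_left hlogM hθ
      linarith
    rw [Fin.sum_univ_two, ← hh 0, ← hh 1]
    have e0 : (c 0 - θ - ε - ((D 0).natDegree : ℝ) / ℓ) * h 0 =
        (c 0 - ε - ((D 0).natDegree : ℝ) / ℓ) * h 0 - θ * h 0 := by ring
    have e1 : (c 1 - θ - ε - ((D 1).natDegree : ℝ) / ℓ) * h 1 =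
        (c 1 - ε - ((D 1).natDegree : ℝ) / ℓ) * h 1 - θ * h 1 := by ring
    rw [e0, e1]
    linarith
  refine ⟨δ, C + Real.log B, Ψ, hδ, hΨ, hone, ?_, fun K _ _ a b n ℓ hn hcong =>
    same_of_congruent hn hcong⟩
  intro ℓ₀ h13 hlt
  set η : Fin 2 → ℝ := fun i => c i - θ - ε - ((D i).natDegree : ℝ) / ℓ₀ with hη
  have hη0 : ∀ i, 0 < η i := by
    intro i
    have := hlt i
    simp only [hη]
    linarith
  set b₁ : ℝ := |C + Real.log B| with hb₁
  have hfin : (Set.univ.pi fun i : Fin 2 => {y : ℚ | H y ≤ Real.exp (b₁ / η i)}).Finite :=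
    Set.Finite.pi fun i => finite_height _
  refine hfin.subset ?_
  rintro x ⟨hx, hΨx, K, iF, iN, a, b, ℓ, hfib, hℓ, hℓ₀, hn, hsame⟩
  have h1 := hone x hx hΨx K a b hfib ℓ hℓ (h13.trans hℓ₀) hn hsame
  rw [Fin.sum_univ_two] at h1
  have hℓR : (0 : ℝ) < ℓ₀ := by
    have : 0 < ℓ₀ := by omega
    exact_mod_cast this
  have hcoef : ∀ i, η i * Real.log (H (x i)) ≤
      (c i - θ - ε - ((D i).natDegree : ℝ) / ℓ) * Real.log (H (x i)) := by
    intro i
    apply mul_le_mul_of_nonneg_right _ (Real.log_nonneg (one_le_H _))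
    simp only [hη]
    have : ((D i).natDegree : ℝ) / ℓ ≤ ((D i).natDegree : ℝ) / ℓ₀ :=
      div_le_div_of_nonneg_left (Nat.cast_nonneg _) hℓR (by exact_mod_cast hℓ₀)
    linarith
  have hnn : ∀ i, 0 ≤ η i * Real.log (H (x i)) := fun i =>
    mul_nonneg (hη0 i).le (Real.log_nonneg (one_le_H _))
  have h5 : C + Real.log B ≤ b₁ := le_abs_self _
  have key : ∀ i, η i * Real.log (H (x i)) ≤ b₁ := by
    intro i
    have g0 := hcoef 0
    have g1 := hcoef 1
    have n0 := hnn 0
    have n1 := hnn 1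
    fin_cases i
    · change η 0 * Real.log (H (x 0)) ≤ b₁
      linarith
    · change η 1 * Real.log (H (x 1)) ≤ b₁
      linarith
  intro i _
  show H (x i) ≤ Real.exp (b₁ / η i)
  rw [← Real.log_le_iff_le_exp (lt_of_lt_of_le one_pos (one_le_H _)), le_div_iff₀ (hη0 i), mul_comm]
  exact key i

end Pool.Agent.Results.MP_f5d5f4_nt.SparsePairsOfFibres
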